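import Pool.Agent.Helper98.ZA.Stmts
import Pool.Agent.Helper98.TA.Basic

/-!
Sheet ZA (MP_7a8f48_an): row ZPP, the periodic part of a function.
-/

open MeasureTheory Filter Topology Finset
open scoped ComplexConjugate

namespace Pool.Agent.Helper94.ZA

open Pool.Agent.Helper98.TW
open Pool.Agent.Helper98.TA
open Pool.Agent.Helper98.ZA

theorem st_ZPP : Pool.Agent.Helper98.ZA.ST_ZPP := by
  intro Ω _ μ _ S S' u N m B hS hP f hf hf1
  classical
  have hmp : ∀ i, MeasurePreserving S^[i] μ μ := fun i => (hS.iterate i).mp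
  have hBi : ∀ i, MeasurableSet (S^[i] ⁻¹' B) := fun i => (hmp i).measurable hP.meas
  have hm0 : (0 : ℝ) < m := by exact_mod_cast hP.pos
  have hreal : ∀ i, (m : ℝ) * μ.real (S^[i] ⁻¹' B) = 1 := by
    intro i
    rw [Measure.real, (hmp i).measure_preimage hP.meas.nullMeasurableSet]
    have h1 := congrArg ENNReal.toReal hP.mass
    rwa [ENNReal.toReal_mul, ENNReal.toReal_natCast, ENNReal.toReal_one] at h1
  -- disjointness
  have h1 : ∀ d, 0 < d → d < m → ∀ᵐ x ∂μ, ¬ (x ∈ B ∧ S^[d] x ∈ B) := by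
    intro d hd hdm
    have := hP.disj d hd hdm
    rw [measure_eq_zero_iff_ae_notMem] at this
    filter_upwards [this] with x hx h
    exact hx h
  have hdis : ∀ᵐ x ∂μ, ∀ i j, i < m → j < m → S^[i] x ∈ B → S^[j] x ∈ B → i = j := by
    have h2 : ∀ᵐ x ∂μ, ∀ i d, 0 < d → d < m → ¬ (S^[i] x ∈ B ∧ S^[d] (S^[i] x) ∈ B) := by
      rw [ae_all_iff]
      intro i
      rw [ae_all_iff]
      intro d
      by_cases hd : 0 < d ∧ d < m
      · filter_upwards [(hmp i).quasiMeasurePreserving.ae (h1 d hd.1 hd.2)] with x hx _ _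
        exact hx
      · exact Eventually.of_forall fun x h h' => absurd ⟨h, h'⟩ hd
    filter_upwards [h2] with x hx
    have key : ∀ i j, i < j → j < m → S^[i] x ∈ B → S^[j] x ∈ B → False := by
      intro i j hij hj hi hjB
      refine hx i (j - i) (by omega) (by omega) ⟨hi, ?_⟩
      rw [← Function.iterate_add_apply, Nat.sub_add_cancel hij.le]
      exact hjB
    intro i j hi hj hiB hjB
    rcases lt_trichotomy i j with h | h | h
    · exact (key i j h hj hiB hjB).elim
    · exact h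
    · exact (key j i h hi hjB hiB).elim
  -- the constants
  obtain ⟨c, hc⟩ : ∃ c : ℕ → ℂ, c = fun i => (m : ℂ) * ∫ x in S^[i] ⁻¹' B, f x ∂μ := ⟨_, rfl⟩
  have hc1 : ∀ i, ‖c i‖ ≤ 1 := by
    intro i
    have h3 : ‖∫ x in S^[i] ⁻¹' B, f x ∂μ‖ ≤ 1 * μ.real (S^[i] ⁻¹' B) :=
      norm_setIntegral_le_of_norm_le_const (measure_lt_top μ _) fun x _ => hf1 x
    rw [hc]
    simp only [norm_mul, Complex.norm_natCast]
    calc (m : ℝ) * ‖∫ x in S^[i] ⁻¹' B, f x ∂μ‖ ≤ m * (1 * μ.real (S^[i] ⁻¹' B)) :=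
          mul_le_mul_of_nonneg_left h3 hm0.le
      _ = 1 := by rw [one_mul, hreal i]
  obtain ⟨r, hr⟩ : ∃ r : ℂ → ℂ, r = fun w => if ‖w‖ ≤ 1 then w else 0 := ⟨_, rfl⟩
  have hrm : Measurable r := by
    rw [hr]
    exact Measurable.ite (measurableSet_le measurable_norm measurable_const) measurable_id
      measurable_const
  have hr1 : ∀ w, ‖r w‖ ≤ 1 := by
    intro w
    rw [hr]
    by_cases h : ‖w‖ ≤ 1
    · simp only [if_pos h]
      exact h
    · simp only [if_neg h, norm_zero]
      exact zero_le_one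
  obtain ⟨Q, hQ⟩ : ∃ Q : Ω → ℂ,
      Q = fun x => ∑ i ∈ range m, if S^[i] x ∈ B then c i else 0 := ⟨_, rfl⟩
  have hQm : Measurable Q := by
    rw [hQ]
    refine Finset.measurable_sum _ fun i _ => ?_
    exact Measurable.ite (hBi i) measurable_const measurable_const
  have hQi : ∀ᵐ x ∂μ, ∀ i, i < m → S^[i] x ∈ B → r (Q x) = c i := by
    filter_upwards [hdis] with x hx i hi hiB
    have h2 : Q x = c i := by
      rw [hQ]
      simp only []
      rw [Finset.sum_eq_single i]
      · rw [if_pos hiB]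
      · intro j hj hji
        rw [if_neg]
        intro hjB
        exact hji (hx j i (Finset.mem_range.1 hj) hi hjB hiB)
      · intro h
        exact absurd (Finset.mem_range.2 hi) h
    rw [h2, hr]
    exact if_pos (hc1 i)
  refine ⟨fun x => r (Q x), hrm.comp hQm, fun x => hr1 _, ?_, fun i hi => ?_⟩
  · have hper : ∀ᵐ x ∂μ, ∀ i, (S^[m] (S^[i] x) ∈ B ↔ S^[i] x ∈ B) := by
      rw [ae_all_iff]
      intro i
      exact (hmp i).quasiMeasurePreserving.ae (Filter.EventuallyEq.mem_iff hP.per)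
    filter_upwards [hper] with x hx
    have h2 : Q (S^[m] x) = Q x := by
      rw [hQ]
      refine Finset.sum_congr rfl fun i _ => ?_
      have h3 : S^[i] (S^[m] x) = S^[m] (S^[i] x) := by
        rw [← Function.iterate_add_apply, ← Function.iterate_add_apply, Nat.add_comm]
      simp only [h3, hx i]
    rw [h2]
  · have h2 : ∫ x in S^[i] ⁻¹' B, (f x - r (Q x)) ∂μ = ∫ x in S^[i] ⁻¹' B, (f x - c i) ∂μ := by
      refine integral_congr_ae ?_
      filter_upwards [ae_restrict_mem (hBi i), ae_restrict_of_ae hQi] with x hx h3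
      rw [h3 i hi hx]
    have hfi : Integrable f (μ.restrict (S^[i] ⁻¹' B)) :=
      Integrable.of_bound hf.aestronglyMeasurable 1 (Eventually.of_forall hf1)
    rw [h2, integral_sub hfi (integrable_const _), setIntegral_const, hc]
    have h4 : ((μ.real (S^[i] ⁻¹' B) : ℝ) : ℂ) * m = 1 := by
      have := hreal i
      rw [mul_comm] at this
      exact_mod_cast this
    rw [Complex.real_smul]
    simp only []
    linear_combination (-(∫ x in S^[i] ⁻¹' B, f x ∂μ)) * h4

end Pool.Agent.Helper94.ZA
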