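import Pool.Agent.Helper98.ZA.Stmts
import Pool.Agent.Helper98.TA.Basic

/-!
Sheet ZA (MP_7a8f48_an): row ZTB, rational eigenvalues of a tower have bounded order.
-/

open MeasureTheory Filter Topology Finset
open scoped ComplexConjugate

namespace Pool.Agent.Helper94.ZA

open Pool.Agent.Helper98.TW
open Pool.Agent.Helper98.TA

section

variable {Ω : Type} [m0 : MeasurableSpace Ω] {μ : Measure Ω} {S : Ω → Ω} {E : SA Ω}
  {ψ φ u : Ω → ℂ}

/-- torsion eigenfunctions in `E` -/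
def Tor (μ : Measure Ω) (S : Ω → Ω) (E : SA Ω) (ψ : Ω → ℂ) : Prop :=
  UF μ ψ ∧ Inc μ bo S ψ ∧ AM μ E ψ ∧ ∃ M : ℕ, 1 ≤ M ∧ AM μ bo (fun x => ψ x ^ M)

theorem tor_one : Tor μ S E (fun _ => 1) :=
  ⟨uf_one, Pool.Agent.Helper98.TA.inc_one, am_const 1, 1, le_rfl,
    am_congr (am_const 1) (Eventually.of_forall fun x => by simp)⟩

theorem Tor.mul (h : Tor μ S E ψ) (h' : Tor μ S E φ) : Tor μ S E (fun x => ψ x * φ x) := by
  obtain ⟨u1, i1, a1, M, hM, b1⟩ := h
  obtain ⟨u2, i2, a2, M', hM', b2⟩ := h'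
  refine ⟨u1.mul u2, Pool.Agent.Helper98.TA.inc_mul i1 i2, am_mul a1 a2, M * M',
    Nat.mul_pos hM hM', ?_⟩
  refine am_congr (am_mul (am_pow b1 M') (am_pow b2 M)) (Eventually.of_forall fun x => ?_)
  simp only [mul_pow, ← pow_mul]
  rw [mul_comm M' M]

theorem Tor.zpow (h : Tor μ S E ψ) (j : ℤ) : Tor μ S E (fun x => ψ x ^ j) := by
  obtain ⟨u1, i1, a1, M, hM, b1⟩ := h
  refine ⟨uf_zpow u1 j, Pool.Agent.Helper98.TA.inc_zpow i1 j, am_zpow a1 j, M, hM, ?_⟩
  refine am_congr (am_zpow b1 j) (Eventually.of_forall fun x => ?_)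
  simp only []
  rw [← zpow_natCast (ψ x ^ j) M, ← zpow_natCast (ψ x) M, ← zpow_mul, ← zpow_mul, mul_comm]

/-- the exponents of the torsion eigenfunctions -/
def Ex (hu : UF μ u) (E' : SA Ω) : AddSubgroup ℤ where
  carrier := {n | ∃ ψ, Tor μ S E' ψ ∧ AM μ E (fun x => ψ x * conj (u x ^ n))}
  add_mem' := by
    rintro m n ⟨ψ, h, a⟩ ⟨φ, h', a'⟩
    refine ⟨_, h.mul h', am_congr (am_mul a a') ?_⟩
    filter_upwards [ne_zero_of_uf hu] with x hx
    rw [zpow_add₀ hx, map_mul]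
    ring
  zero_mem' := ⟨_, tor_one, am_congr (am_const 1) (Eventually.of_forall fun x => by simp)⟩
  neg_mem' := by
    rintro n ⟨ψ, h, a⟩
    refine ⟨_, h.zpow (-1), am_congr (am_conj a) ?_⟩
    filter_upwards [hu.2, h.1.2] with x hx hψ
    have e1 : ψ x ^ (-1 : ℤ) = conj (ψ x) := by
      have := conj_zpow hψ 1
      rw [zpow_one] at this
      exact this.symm
    rw [e1, ← conj_zpow hx n, map_mul]

end

theorem st_ZTB (hLT : Pool.Agent.Helper98.TW.ST_LT) : Pool.Agent.Helper98.ZA.ST_ZTB := by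
  intro Ω _ μ _ S S' u A N hS he hTr
  have key : ∀ k, ∃ m : ℕ, 1 ≤ m ∧ ∀ ψ, Tor μ S (A k) ψ → AM μ bo (fun x => ψ x ^ m) := by
    intro k
    induction k with
    | zero =>
      refine ⟨1, le_rfl, fun ψ h => ?_⟩
      have h1 := h.2.2.1
      rw [hTr.zero] at h1
      exact am_congr h1 (Eventually.of_forall fun x => (pow_one _).symm)
    | succ k ih =>
      obtain ⟨m, hm, ih⟩ := ih
      have hu := hTr.uf k
      have hAk : IA μ (A k) S S' := hTr.ia hS k
      obtain ⟨d, hd⟩ := Int.subgroup_cyclic (Ex (S := S) (E := A k) hu (A (k + 1)))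
      have hdm : d ∈ Ex (S := S) (E := A k) hu (A (k + 1)) := by
        rw [hd]
        exact AddSubgroup.mem_closure_singleton_self d
      obtain ⟨φ, hφ, aφ⟩ := hdm
      obtain ⟨M, hM, hMφ⟩ := hφ.2.2.2
      refine ⟨m * M, Nat.mul_pos hm hM, fun ψ hψ => ?_⟩
      have hψA : AM μ (jo (A k) (sg (Pw μ (A k) (u k)))) ψ := by
        have h1 := hψ.2.2.1
        rw [hTr.succ k] at h1
        exact h1
      obtain ⟨n, hn⟩ := lt_Pw hLT hS he hAk lq_refl hAk hu (hTr.inc k) hψ.1 hψA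
        (Pool.Agent.Helper98.TA.inc_mono lq_bo hψ.2.1)
      have hnm : n ∈ Ex (S := S) (E := A k) hu (A (k + 1)) := ⟨ψ, hψ, hn⟩
      rw [hd, AddSubgroup.mem_closure_singleton] at hnm
      obtain ⟨j, rfl⟩ := hnm
      -- `ψ φ ^ (-j)` is in `A k`
      obtain ⟨χ, hχ⟩ : ∃ χ : Ω → ℂ, χ = fun x => ψ x * φ x ^ (-j) := ⟨_, rfl⟩
      have hχT : Tor μ S (A (k + 1)) χ := hχ ▸ hψ.mul (hφ.zpow (-j))
      have hχA : AM μ (A k) χ := by
        refine am_congr (am_mul hn (am_zpow aφ (-j))) ?_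
        filter_upwards [hu.2, ne_zero_of_uf hu] with x hx hx0
        rw [hχ]
        have e1 : conj (u k x ^ (j • d)) = u k x ^ (-(j * d)) := by
          rw [smul_eq_mul]
          exact conj_zpow hx _
        have e2 : conj (u k x ^ d) = u k x ^ (-d) := conj_zpow hx d
        rw [e1, e2, mul_zpow, ← zpow_mul]
        have e3 : u k x ^ (-(j * d)) * u k x ^ (-d * -j) = 1 := by
          rw [← zpow_add₀ hx0]
          have : -(j * d) + -d * -j = 0 := by ring
          rw [this, zpow_zero]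
        linear_combination (ψ x * φ x ^ (-j)) * e3
      have h1 := ih χ ⟨hχT.1, hχT.2.1, hχA, hχT.2.2.2⟩
      refine am_congr (am_mul (am_pow h1 M) (am_zpow hMφ (j * m))) ?_
      filter_upwards [ne_zero_of_uf hφ.1] with x hx0
      rw [hχ]
      simp only []
      rw [← pow_mul, mul_pow, mul_assoc, ← zpow_natCast (φ x ^ (-j)) (m * M),
        ← zpow_natCast (φ x) M, ← zpow_mul, ← zpow_mul, ← zpow_add₀ hx0]
      have : -j * ((m * M : ℕ) : ℤ) + (M : ℤ) * (j * m) = 0 := by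
        push_cast
        ring
      rw [this, zpow_zero, mul_one]
  obtain ⟨m, hm, h⟩ := key N
  exact ⟨m, hm, fun ψ uψ iψ M hM hψ => h ψ ⟨uψ, iψ, hTr.top ψ uψ.1, M, hM, hψ⟩⟩

end Pool.Agent.Helper94.ZA
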